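import Pool.Agent.H63.CF.Cel
import Mathlib.NumberTheory.EulerProduct.Basic
import Mathlib.NumberTheory.Harmonic.Bounds

/-!
# The density pr (helper63)

`prod_rg_tendsto`: the product of 1 - 1/p over the primes x^α ≤ p < x^β tends to α / β.
`pr_split`: pr x β times this product is pr x α.
`pr_ratio`: (a / a0) pr x a0 ≤ (1 + ε) pr x a for x large.
`pr_lower`: a ≤ pr x a.
-/

set_option autoImplicit false

namespace Pool.Agent.H63.CF

open Filter Topology Finset Pool.Agent.H92.MM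

theorem one_sub_inv_pos {p : ℕ} (hp : p.Prime) : (0 : ℝ) < 1 - 1 / (p : ℝ) := by
  have h2 : (2 : ℝ) ≤ p := by exact_mod_cast hp.two_le
  rw [sub_pos, div_lt_one (by linarith)]
  linarith

theorem prod_rg_pos (x α β : ℝ) : (0 : ℝ) < ∏ p ∈ rg x α β, (1 - 1 / (p : ℝ)) :=
  prod_pos fun _ hp => one_sub_inv_pos (mem_rg.1 hp).1

theorem prod_rg_upper (x α β : ℝ) :
    ∏ p ∈ rg x α β, (1 - 1 / (p : ℝ)) ≤ Real.exp (-∑ p ∈ rg x α β, (1 : ℝ) / p) := by
  rw [← sum_neg_distrib, Real.exp_sum]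
  refine prod_le_prod (fun p hp => (one_sub_inv_pos (mem_rg.1 hp).1).le) fun p _ => ?_
  have := Real.add_one_le_exp (-(1 / (p : ℝ)))
  linarith

theorem prod_rg_lower {x α β : ℝ} (hA : 2 ≤ x ^ α) :
    Real.exp (-(x ^ α / (x ^ α - 1) * ∑ p ∈ rg x α β, (1 : ℝ) / p)) ≤
      ∏ p ∈ rg x α β, (1 - 1 / (p : ℝ)) := by
  rw [mul_sum, ← sum_neg_distrib, Real.exp_sum]
  refine prod_le_prod (fun p _ => (Real.exp_pos _).le) fun p hp => ?_
  obtain ⟨h1, h2, h3⟩ := mem_rg.1 hp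
  have hp2 : (2 : ℝ) ≤ p := by exact_mod_cast h1.two_le
  have h4 : 1 / ((p : ℝ) - 1) ≤ x ^ α / (x ^ α - 1) * (1 / (p : ℝ)) := by
    rw [div_mul_div_comm, mul_one, div_le_div_iff₀ (by linarith) (by nlinarith)]
    nlinarith
  have hp1 : (p : ℝ) - 1 ≠ 0 := by linarith
  have h5 : Real.exp (-(1 / ((p : ℝ) - 1))) ≤ 1 - 1 / (p : ℝ) := by
    have h6 := Real.add_one_le_exp (1 / ((p : ℝ) - 1))
    have h7 : (p : ℝ) / ((p : ℝ) - 1) = 1 / ((p : ℝ) - 1) + 1 := by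
      field_simp
      ring
    rw [Real.exp_neg]
    have h8 : 1 - 1 / (p : ℝ) = ((p : ℝ) / ((p : ℝ) - 1))⁻¹ := by
      rw [inv_div]
      field_simp
    rw [h8, h7]
    refine inv_anti₀ ?_ h6
    have : 0 < 1 / ((p : ℝ) - 1) := by
      apply div_pos one_pos
      linarith
    linarith
  refine le_trans (Real.exp_le_exp.2 ?_) h5
  linarith

theorem prod_rg_tendsto {α β : ℝ} (hα : 0 < α) (hαβ : α ≤ β) :
    Tendsto (fun x : ℝ => ∏ p ∈ rg x α β, (1 - 1 / (p : ℝ))) atTop (𝓝 (α / β)) := by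
  have hβ : 0 < β := lt_of_lt_of_le hα hαβ
  have h1 := rg_tendsto hα hαβ
  have hlim : Real.exp (-Real.log (β / α)) = α / β := by
    rw [Real.exp_neg, Real.exp_log (by positivity), inv_div]
  have h2 : Tendsto (fun x : ℝ => Real.exp (-∑ p ∈ rg x α β, (1 : ℝ) / p)) atTop (𝓝 (α / β)) := by
    rw [← hlim]
    exact (Real.continuous_exp.tendsto _).comp h1.neg
  have h3 : Tendsto (fun x : ℝ => x ^ α / (x ^ α - 1)) atTop (𝓝 1) := by
    have h4 : Tendsto (fun x : ℝ => 1 + 1 / (x ^ α - 1)) atTop (𝓝 (1 + 0)) := by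
      refine tendsto_const_nhds.add ?_
      refine Tendsto.const_div_atTop ?_ 1
      exact tendsto_atTop_add_const_right _ _ (tendsto_rpow_atTop hα)
    rw [add_zero] at h4
    refine h4.congr' ?_
    filter_upwards [(tendsto_rpow_atTop hα).eventually_ge_atTop 2] with x hx
    have : x ^ α - 1 ≠ 0 := by linarith
    field_simp
    ring
  have h4 : Tendsto (fun x : ℝ => Real.exp (-(x ^ α / (x ^ α - 1) * ∑ p ∈ rg x α β, (1 : ℝ) / p)))
      atTop (𝓝 (α / β)) := by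
    rw [← hlim]
    refine (Real.continuous_exp.tendsto _).comp ?_
    have := (h3.mul h1).neg
    rwa [one_mul] at this
  refine tendsto_of_tendsto_of_tendsto_of_le_of_le' h4 h2 ?_ ?_
  · filter_upwards [(tendsto_rpow_atTop hα).eventually_ge_atTop 2] with x hx
    exact prod_rg_lower hx
  · exact Eventually.of_forall fun x => prod_rg_upper x α β

theorem pr_split {x α β : ℝ} (hx : 1 ≤ x) (hαβ : α ≤ β) :
    pr x α = pr x β * ∏ p ∈ rg x α β, (1 - 1 / (p : ℝ)) := by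
  have hle : x ^ α ≤ x ^ β := Real.rpow_le_rpow_of_exponent_le hx hαβ
  have h1 : ∏ p ∈ (range ⌈x ^ β⌉₊).filter Nat.Prime, (1 - 1 / (p : ℝ)) =
      (∏ p ∈ (range ⌈x ^ α⌉₊).filter Nat.Prime, (1 - 1 / (p : ℝ))) *
        ∏ p ∈ rg x α β, (1 - 1 / (p : ℝ)) := by
    rw [← prod_union]
    · refine prod_congr ?_ fun _ _ => rfl
      ext p
      rw [mem_union, mem_rg, mem_filter, mem_filter, mem_range, mem_range, Nat.lt_ceil, Nat.lt_ceil]
      constructor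
      · rintro ⟨a1, a2⟩
        rcases lt_or_ge (p : ℝ) (x ^ α) with h | h
        · exact Or.inl ⟨h, a2⟩
        · exact Or.inr ⟨a2, h, a1⟩
      · rintro (⟨a1, a2⟩ | ⟨a1, a2, a3⟩)
        · exact ⟨a1.trans_le hle, a2⟩
        · exact ⟨a3, a1⟩
    · rw [disjoint_left]
      intro p hp hp'
      rw [mem_filter, mem_range, Nat.lt_ceil] at hp
      rw [mem_rg] at hp'
      linarith [hp.1, hp'.2.1]
  have h2 : ∀ y : ℝ, (0 : ℝ) < ∏ p ∈ (range ⌈y⌉₊).filter Nat.Prime, (1 - 1 / (p : ℝ)) :=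
    fun y => prod_pos fun _ hp => one_sub_inv_pos (mem_filter.1 hp).2
  have h3 := (h2 (x ^ α)).ne'
  have h4 := (prod_rg_pos x α β).ne'
  rw [pr, pr, h1]
  rcases eq_or_ne (Real.log x) 0 with h0 | h0
  · rw [h0]; simp
  · field_simp

theorem pr_nonneg {x α : ℝ} (hx : 1 ≤ x) : 0 ≤ pr x α := by
  have h2 : (0 : ℝ) < ∏ p ∈ (range ⌈x ^ α⌉₊).filter Nat.Prime, (1 - 1 / (p : ℝ)) :=
    prod_pos fun _ hp => one_sub_inv_pos (mem_filter.1 hp).2
  have := Real.log_nonneg hx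
  rw [pr]
  positivity

theorem pr_ratio {a b ε : ℝ} (ha : 0 < a) (hab : a ≤ b) (hε : 0 < ε) :
    ∀ᶠ x : ℝ in atTop, a / b * pr x b ≤ (1 + ε) * pr x a := by
  have hb : 0 < b := lt_of_lt_of_le ha hab
  have h1 := prod_rg_tendsto ha hab
  have h2 : a / b / (1 + ε) < a / b := by
    apply div_lt_self (by positivity)
    linarith
  filter_upwards [h1.eventually (lt_mem_nhds h2), eventually_ge_atTop (1 : ℝ)] with x hx hx1
  rw [pr_split hx1 hab]
  have h3 : a / b ≤ (1 + ε) * ∏ p ∈ rg x a b, (1 - 1 / (p : ℝ)) := by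
    have := hx.le
    rwa [div_le_iff₀' (by linarith)] at this
  have h4 : 0 ≤ pr x b := pr_nonneg hx1
  calc a / b * pr x b ≤ ((1 + ε) * ∏ p ∈ rg x a b, (1 - 1 / (p : ℝ))) * pr x b :=
        mul_le_mul_of_nonneg_right h3 h4
    _ = (1 + ε) * (pr x b * ∏ p ∈ rg x a b, (1 - 1 / (p : ℝ))) := by ring

/-- the form with a 2^L = a0 -/
theorem pr_pow {a a0 ε : ℝ} {L : ℕ} (ha : 0 < a) (hL : a * 2 ^ L = a0) (hε : 0 < ε) :
    ∀ᶠ x : ℝ in atTop, ((2 : ℝ) ^ L)⁻¹ * pr x a0 ≤ (1 + ε) * pr x a := by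
  have h2 : (1 : ℝ) ≤ 2 ^ L := one_le_pow₀ (by norm_num)
  have hab : a ≤ a0 := by rw [← hL]; nlinarith
  have h3 : a / a0 = ((2 : ℝ) ^ L)⁻¹ := by
    rw [← hL]
    field_simp
  have := pr_ratio ha hab hε
  rwa [h3] at this

theorem log_le_prod (N : ℕ) :
    Real.log N ≤ (∏ p ∈ (range N).filter Nat.Prime, (1 - 1 / (p : ℝ)))⁻¹ := by
  rcases Nat.eq_zero_or_pos N with rfl | hN
  · simp
  obtain ⟨f, hf⟩ : ∃ f : ℕ →* ℝ, ∀ n, f n = 1 / (n : ℝ) :=
    ⟨{ toFun := fun n => 1 / (n : ℝ)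
       map_one' := by simp
       map_mul' := fun m n => by push_cast; rw [one_div_mul_one_div] }, fun _ => rfl⟩
  have h1 := (EulerProduct.summable_and_hasSum_smoothNumbers_prod_primesBelow_geometric
    (f := f) (fun {p} hp => by
      rw [hf, Real.norm_eq_abs, abs_of_nonneg (by positivity)]
      have : (2 : ℝ) ≤ p := by exact_mod_cast hp.two_le
      rw [div_lt_one (by linarith)]
      linarith) N).2
  have h2 : ∏ p ∈ N.primesBelow, (1 - f p)⁻¹ =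
      (∏ p ∈ (range N).filter Nat.Prime, (1 - 1 / (p : ℝ)))⁻¹ := by
    rw [Nat.primesBelow, prod_inv_distrib]
    simp only [hf]
  rw [h2] at h1
  have h3 : ∑ m ∈ Ico 1 N, 1 / (m : ℝ) ≤
      (∏ p ∈ (range N).filter Nat.Prime, (1 - 1 / (p : ℝ)))⁻¹ := by
    obtain ⟨e, he⟩ : ∃ e : {m // m ∈ Ico 1 N} → N.smoothNumbers, ∀ m, ((e m : ℕ)) = m.1 :=
      ⟨fun m => ⟨m.1, Nat.mem_smoothNumbers_of_lt (mem_Ico.1 m.2).1 (mem_Ico.1 m.2).2⟩,
        fun _ => rfl⟩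
    have hinj : Function.Injective e := by
      intro u v huv
      apply Subtype.ext
      rw [← he u, ← he v, huv]
    have h4 := sum_le_hasSum ((Finset.univ : Finset {m // m ∈ Ico 1 N}).map ⟨e, hinj⟩)
      (fun m _ => by rw [hf]; positivity) h1
    refine le_trans (le_of_eq ?_) h4
    rw [sum_map]
    simp only [Function.Embedding.coeFn_mk, hf, he]
    rw [← sum_coe_sort (Ico 1 N) (fun m : ℕ => 1 / (m : ℝ))]
  refine le_trans ?_ h3
  have h5 := log_add_one_le_harmonic (N - 1)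
  rw [Nat.sub_add_cancel hN] at h5
  refine h5.trans (le_of_eq ?_)
  rw [harmonic_eq_sum_Icc]
  push_cast
  have h6 : Icc 1 (N - 1) = Ico 1 N := by
    ext m
    rw [mem_Icc, mem_Ico]
    omega
  rw [h6]
  refine sum_congr rfl fun m _ => ?_
  rw [one_div]

theorem pr_lower {x a : ℝ} (hx : 1 < x) (ha : 0 < a) : a ≤ pr x a := by
  have hlx := Real.log_pos hx
  have h2 : (0 : ℝ) < ∏ p ∈ (range ⌈x ^ a⌉₊).filter Nat.Prime, (1 - 1 / (p : ℝ)) :=
    prod_pos fun _ hp => one_sub_inv_pos (mem_filter.1 hp).2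
  have hxa : 0 < x ^ a := Real.rpow_pos_of_pos (by linarith) a
  have h3 : a * Real.log x ≤ Real.log ⌈x ^ a⌉₊ := by
    rw [← Real.log_rpow (by linarith)]
    exact Real.log_le_log hxa (Nat.le_ceil _)
  have h4 := h3.trans (log_le_prod ⌈x ^ a⌉₊)
  rw [pr, one_div, mul_inv]
  rw [← div_eq_inv_mul, le_div_iff₀ hlx]
  exact h4

/-- the same, with c2 = 1 -/
theorem pr_lower_ev {a : ℝ} (ha : 0 < a) : ∀ᶠ x : ℝ in atTop, a ≤ pr x a := by
  filter_upwards [eventually_gt_atTop (1 : ℝ)] with x hx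
  exact pr_lower hx ha

/-- `Mer` of `MM/Lo.lean` (unfolded) -/
theorem mer : ∀ ε a0 : ℝ, 0 < ε → 0 < a0 → ∀ L : ℕ, ∀ᶠ x : ℝ in atTop,
    (1 / 2) ^ L * pr x a0 ≤ (1 + ε) * pr x (a0 / 2 ^ L) := by
  intro ε a0 hε ha0 L
  have h1 : a0 / 2 ^ L * 2 ^ L = a0 := by field_simp
  have h2 := pr_pow (a := a0 / 2 ^ L) (L := L) (by positivity) h1 hε
  rw [one_div, inv_pow]
  exact h2

end Pool.Agent.H63.CF
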