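import Pool.Agent.H5.PNT.PNT

/-!
# Sums of 1/p over primes in an interval (helper63)

`mert`: for every ε > 0 there is A such that for A ≤ a ≤ b the sum of 1/p over the primes
a < p ≤ b is log (log b / log a) up to ε (1 + log (log b / log a)).
`mert_pow`: the sum over x^α < p ≤ x^β tends to log (β / α).
-/

set_option autoImplicit false

namespace Pool.Agent.H63.CF

open Filter Topology Finset

open Chebyshev (theta)

/-- sum of 1/p over the primes a < p ≤ b -/
noncomputable def sp (a b : ℝ) : ℝ := ∑ p ∈ (Ioc ⌊a⌋₊ ⌊b⌋₊).filter Nat.Prime, (1 : ℝ) / p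

private theorem log_pos' {t : ℝ} (ht : 2 ≤ t) : 0 < Real.log t := Real.log_pos (by linarith)

private theorem hasDeriv_f {t : ℝ} (ht : 2 ≤ t) :
    HasDerivAt (fun t : ℝ => (t * Real.log t)⁻¹) (-(Real.log t + 1) / (t * Real.log t) ^ 2) t := by
  have h0 : t ≠ 0 := by linarith
  have hl := (log_pos' ht).ne'
  have h1 : HasDerivAt (fun t : ℝ => t * Real.log t) (Real.log t + 1) t :=
    Real.hasDerivAt_mul_log h0
  exact h1.inv (mul_ne_zero h0 hl)

private theorem deriv_f {t : ℝ} (ht : 2 ≤ t) :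
    deriv (fun t : ℝ => (t * Real.log t)⁻¹) t = -(Real.log t + 1) / (t * Real.log t) ^ 2 :=
  (hasDeriv_f ht).deriv

private theorem hasDeriv_H {t : ℝ} (ht : 2 ≤ t) :
    HasDerivAt (fun t : ℝ => (Real.log t)⁻¹ - Real.log (Real.log t))
      (-(Real.log t + 1) / (t * Real.log t) ^ 2 * t) t := by
  have h0 : t ≠ 0 := by linarith
  have hl := (log_pos' ht).ne'
  have h1 := (Real.hasDerivAt_log h0).inv hl
  have h2 := (Real.hasDerivAt_log h0).log hl
  refine (h1.sub h2).congr_deriv ?_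
  field_simp
  ring

private theorem cont_f' {a b : ℝ} (ha : 2 ≤ a) :
    ContinuousOn (fun t : ℝ => -(Real.log t + 1) / (t * Real.log t) ^ 2) (Set.Icc a b) := by
  have hl : ContinuousOn (fun t : ℝ => Real.log t) (Set.Icc a b) := by
    refine Real.continuousOn_log.mono ?_
    intro t ht h0
    have h1 : t = 0 := h0
    have := ht.1
    linarith
  refine ContinuousOn.div ((hl.add continuousOn_const).neg) ((continuousOn_id.mul hl).pow 2) ?_
  intro t ht
  have h2 : 2 ≤ t := ha.trans ht.1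
  have := log_pos' h2
  have : 0 < t := by linarith
  positivity

theorem mert_aux {a b ε : ℝ} (ha : 2 ≤ a) (hab : a ≤ b)
    (hε : ∀ t ∈ Set.Icc a b, |theta t - t| ≤ ε * t) :
    |sp a b - (Real.log (Real.log b) - Real.log (Real.log a))| ≤
      ε * (Real.log (Real.log b) - Real.log (Real.log a) + 2 * (Real.log a)⁻¹) := by
  have hb : 2 ≤ b := ha.trans hab
  have hla := log_pos' ha
  have hlb := log_pos' hb
  have ha0 : 0 < a := by linarith
  have hb0 : 0 < b := by linarith
  obtain ⟨c, hc⟩ : ∃ c : ℕ → ℝ, ∀ k, c k = if k.Prime then Real.log k else 0 :=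
    ⟨fun k => if k.Prime then Real.log k else 0, fun _ => rfl⟩
  have hθ : ∀ t : ℝ, ∑ k ∈ Icc 0 ⌊t⌋₊, c k = theta t := by
    intro t
    rw [Chebyshev.theta_eq_sum_Icc, sum_filter]
    exact sum_congr rfl fun k _ => hc k
  have hsp : sp a b = ∑ k ∈ Ioc ⌊a⌋₊ ⌊b⌋₊, ((k : ℝ) * Real.log k)⁻¹ * c k := by
    rw [sp, sum_filter]
    refine sum_congr rfl fun k _ => ?_
    rw [hc]
    split_ifs with hk
    · have h1 : Real.log k ≠ 0 := (Real.log_pos (by exact_mod_cast hk.one_lt)).ne'
      have h2 : (k : ℝ) ≠ 0 := by exact_mod_cast hk.ne_zero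
      field_simp
    · simp
  have hdi : ∀ t ∈ Set.Icc a b, DifferentiableAt ℝ (fun t : ℝ => (t * Real.log t)⁻¹) t :=
    fun t ht => (hasDeriv_f (ha.trans ht.1)).differentiableAt
  have hcont := cont_f' (b := b) ha
  have hint0 : MeasureTheory.IntegrableOn
      (fun t : ℝ => -(Real.log t + 1) / (t * Real.log t) ^ 2) (Set.Icc a b) :=
    hcont.integrableOn_Icc
  have hint : MeasureTheory.IntegrableOn (deriv (fun t : ℝ => (t * Real.log t)⁻¹))
      (Set.Icc a b) := by
    refine hint0.congr_fun (fun t ht => ?_) measurableSet_Icc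
    exact (deriv_f (ha.trans ht.1)).symm
  have habel := sum_mul_eq_sub_sub_integral_mul c (by linarith : (0 : ℝ) ≤ a) hab hdi hint
  rw [← hsp, ← intervalIntegral.integral_of_le hab] at habel
  simp only [hθ] at habel
  -- the comparison integral
  have hIcc : Set.uIcc a b = Set.Icc a b := Set.uIcc_of_le hab
  have hcm : ContinuousOn (fun t : ℝ => -(Real.log t + 1) / (t * Real.log t) ^ 2 * t)
      (Set.Icc a b) := hcont.mul continuousOn_id
  have hFTC : ∫ t in a..b, -(Real.log t + 1) / (t * Real.log t) ^ 2 * t =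
      ((Real.log b)⁻¹ - Real.log (Real.log b)) - ((Real.log a)⁻¹ - Real.log (Real.log a)) := by
    refine intervalIntegral.integral_eq_sub_of_hasDerivAt
      (f := fun t : ℝ => (Real.log t)⁻¹ - Real.log (Real.log t)) (fun t ht => ?_) ?_
    · rw [hIcc] at ht
      exact hasDeriv_H (ha.trans ht.1)
    · refine ContinuousOn.intervalIntegrable ?_
      rw [hIcc]; exact hcm
  have hI1 : IntervalIntegrable (fun t => deriv (fun t : ℝ => (t * Real.log t)⁻¹) t * theta t)
      MeasureTheory.volume a b := by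
    rw [intervalIntegrable_iff_integrableOn_Icc_of_le hab]
    have h10 : MeasureTheory.IntegrableOn (fun t : ℝ => deriv (fun t : ℝ => (t * Real.log t)⁻¹) t *
        ∑ k ∈ Icc 0 ⌊t⌋₊, c k) (Set.Icc a b) :=
      integrableOn_mul_sum_Icc (𝕜 := ℝ) c (by linarith : (0 : ℝ) ≤ a) hint
    simpa only [hθ] using h10
  have hI2 : IntervalIntegrable (fun t : ℝ => -(Real.log t + 1) / (t * Real.log t) ^ 2 * t)
      MeasureTheory.volume a b := by
    refine ContinuousOn.intervalIntegrable ?_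
    rw [hIcc]; exact hcm
  have hdiff : (∫ t in a..b, deriv (fun t : ℝ => (t * Real.log t)⁻¹) t * theta t) -
      (∫ t in a..b, -(Real.log t + 1) / (t * Real.log t) ^ 2 * t) =
      ∫ t in a..b, (deriv (fun t : ℝ => (t * Real.log t)⁻¹) t * theta t -
        -(Real.log t + 1) / (t * Real.log t) ^ 2 * t) :=
    (intervalIntegral.integral_sub hI1 hI2).symm
  have hbd : ‖∫ t in a..b, (deriv (fun t : ℝ => (t * Real.log t)⁻¹) t * theta t -
        -(Real.log t + 1) / (t * Real.log t) ^ 2 * t)‖ ≤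
      ∫ t in a..b, -ε * (-(Real.log t + 1) / (t * Real.log t) ^ 2 * t) := by
    refine intervalIntegral.norm_integral_le_of_norm_le hab ?_ (hI2.const_mul (-ε))
    refine Filter.Eventually.of_forall fun t ht => ?_
    have ht2 : t ∈ Set.Icc a b := ⟨ht.1.le, ht.2⟩
    have h2 : 2 ≤ t := ha.trans ht2.1
    rw [deriv_f h2, ← mul_sub, norm_mul, Real.norm_eq_abs, Real.norm_eq_abs]
    have h3 := log_pos' h2
    have h4 : |(-(Real.log t + 1) / (t * Real.log t) ^ 2)| =
        (Real.log t + 1) / (t * Real.log t) ^ 2 := by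
      rw [neg_div, abs_neg, abs_of_nonneg (by positivity)]
    rw [h4]
    calc (Real.log t + 1) / (t * Real.log t) ^ 2 * |theta t - t|
        ≤ (Real.log t + 1) / (t * Real.log t) ^ 2 * (ε * t) :=
          mul_le_mul_of_nonneg_left (hε t ht2) (by positivity)
      _ = -ε * (-(Real.log t + 1) / (t * Real.log t) ^ 2 * t) := by ring
  rw [intervalIntegral.integral_const_mul, hFTC, Real.norm_eq_abs] at hbd
  have hea := hε a ⟨le_rfl, hab⟩
  have heb := hε b ⟨hab, le_rfl⟩
  have h5 : |(b * Real.log b)⁻¹ * (theta b - b)| ≤ ε * (Real.log b)⁻¹ := by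
    rw [abs_mul, abs_of_pos (inv_pos.2 (mul_pos hb0 hlb))]
    calc (b * Real.log b)⁻¹ * |theta b - b| ≤ (b * Real.log b)⁻¹ * (ε * b) :=
          mul_le_mul_of_nonneg_left heb (by positivity)
      _ = ε * (Real.log b)⁻¹ := by field_simp
  have h6 : |(a * Real.log a)⁻¹ * (theta a - a)| ≤ ε * (Real.log a)⁻¹ := by
    rw [abs_mul, abs_of_pos (inv_pos.2 (mul_pos ha0 hla))]
    calc (a * Real.log a)⁻¹ * |theta a - a| ≤ (a * Real.log a)⁻¹ * (ε * a) :=
          mul_le_mul_of_nonneg_left hea (by positivity)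
      _ = ε * (Real.log a)⁻¹ := by field_simp
  have e1 : (b * Real.log b)⁻¹ * b = (Real.log b)⁻¹ := by field_simp
  have e2 : (a * Real.log a)⁻¹ * a = (Real.log a)⁻¹ := by field_simp
  have key : sp a b - (Real.log (Real.log b) - Real.log (Real.log a)) =
      (b * Real.log b)⁻¹ * (theta b - b) - (a * Real.log a)⁻¹ * (theta a - a) -
      ∫ t in a..b, (deriv (fun t : ℝ => (t * Real.log t)⁻¹) t * theta t -
        -(Real.log t + 1) / (t * Real.log t) ^ 2 * t) := by
    rw [← hdiff, hFTC, habel, mul_sub, mul_sub, e1, e2]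
    ring
  rw [key]
  have h7 := abs_le.1 h5
  have h8 := abs_le.1 h6
  have h9 := abs_le.1 hbd
  rw [abs_le]
  constructor <;> nlinarith [h7.1, h7.2, h8.1, h8.2, h9.1, h9.2]

theorem mert (ε : ℝ) (hε : 0 < ε) : ∃ A : ℝ, 2 ≤ A ∧ ∀ a b : ℝ, A ≤ a → a ≤ b →
    |sp a b - Real.log (Real.log b / Real.log a)| ≤
      ε * (1 + Real.log (Real.log b / Real.log a)) := by
  have h1 := Pool.Agent.H5.PNT.theta_tendsto
  rw [Metric.tendsto_atTop] at h1
  obtain ⟨A0, hA0⟩ := h1 ε hε
  refine ⟨max 8 A0, le_trans (by norm_num) (le_max_left _ _), fun a b ha hab => ?_⟩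
  have ha8 : 8 ≤ a := (le_max_left _ _).trans ha
  have haA : A0 ≤ a := (le_max_right _ _).trans ha
  have ha2 : 2 ≤ a := by linarith
  have hla := log_pos' ha2
  have hlb := log_pos' (ha2.trans hab)
  have hth : ∀ t ∈ Set.Icc a b, |theta t - t| ≤ ε * t := by
    intro t ht
    have ht0 : 0 < t := by have := ht.1; linarith
    have h2 := hA0 t (haA.trans ht.1)
    rw [Real.dist_eq] at h2
    have e : theta t / t - 1 = (theta t - t) / t := by field_simp
    rw [e, abs_div, abs_of_pos ht0, div_lt_iff₀ ht0] at h2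
    exact h2.le
  have h3 := mert_aux ha2 hab hth
  rw [Real.log_div hlb.ne' hla.ne']
  refine h3.trans (mul_le_mul_of_nonneg_left ?_ hε.le)
  have hlog8 : 2 ≤ Real.log a := by
    rw [Real.le_log_iff_exp_le (by linarith)]
    have h5 := Real.exp_one_lt_d9
    have h6 : Real.exp 2 = Real.exp 1 ^ 2 := by
      rw [← Real.exp_nat_mul]; norm_num
    rw [h6]
    have h7 := Real.exp_pos 1
    nlinarith
  have h4 : (Real.log a)⁻¹ ≤ 2⁻¹ := inv_anti₀ (by norm_num) hlog8
  linarith

theorem mert_pow {α β : ℝ} (hα : 0 < α) (hαβ : α ≤ β) :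
    Tendsto (fun x : ℝ => sp (x ^ α) (x ^ β)) atTop (𝓝 (Real.log (β / α))) := by
  have hβ : 0 < β := lt_of_lt_of_le hα hαβ
  have hl0 : 0 ≤ Real.log (β / α) := Real.log_nonneg ((one_le_div hα).2 hαβ)
  rw [Metric.tendsto_atTop]
  intro ε hε
  obtain ⟨A, hA2, hA⟩ := mert (ε / (2 * (1 + Real.log (β / α)))) (by positivity)
  have hA0 : 0 < A := by linarith
  refine ⟨max (A ^ α⁻¹) 2, fun x hx => ?_⟩
  have hx2 : 2 ≤ x := (le_max_right _ _).trans hx
  have hx0 : 0 < x := by linarith
  have hlx := log_pos' hx2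
  have hxA : A ≤ x ^ α := by
    have h1 : A ^ α⁻¹ ≤ x := (le_max_left _ _).trans hx
    have h2 := Real.rpow_le_rpow (Real.rpow_nonneg hA0.le _) h1 hα.le
    rwa [← Real.rpow_mul hA0.le, inv_mul_cancel₀ hα.ne', Real.rpow_one] at h2
  have hxx : x ^ α ≤ x ^ β := Real.rpow_le_rpow_of_exponent_le (by linarith) hαβ
  have h3 := hA _ _ hxA hxx
  have e : Real.log (x ^ β) / Real.log (x ^ α) = β / α := by
    rw [Real.log_rpow hx0, Real.log_rpow hx0]
    field_simp
  rw [e] at h3
  rw [Real.dist_eq]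
  refine lt_of_le_of_lt h3 ?_
  have h4 : ε / (2 * (1 + Real.log (β / α))) * (1 + Real.log (β / α)) = ε / 2 := by
    have : (1 + Real.log (β / α)) ≠ 0 := by positivity
    field_simp
  rw [h4]
  linarith

end Pool.Agent.H63.CF
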