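import Pool.Agent.H92.MM.Def
import Pool.Agent.H63.CF.Mert

/-!
# Sum of 1/p over the primes of a range (helper63)

`rg_tendsto`: the sum of 1/p over the primes x^α ≤ p < x^β tends to log (β / α).
-/

set_option autoImplicit false

namespace Pool.Agent.H63.CF

open Filter Topology Finset Pool.Agent.H92.MM

theorem mem_rg {x α β : ℝ} {p : ℕ} :
    p ∈ rg x α β ↔ p.Prime ∧ x ^ α ≤ (p : ℝ) ∧ (p : ℝ) < x ^ β := by
  rw [rg, mem_filter, mem_range, Nat.lt_ceil]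
  tauto

private theorem one_div_floor {A : ℝ} (hA : 1 ≤ A) : (1 : ℝ) / (⌊A⌋₊ : ℝ) ≤ 2 / A := by
  have h1 : (1 : ℝ) ≤ (⌊A⌋₊ : ℝ) := by exact_mod_cast Nat.le_floor (by simpa using hA)
  have h2 := Nat.lt_floor_add_one A
  rw [div_le_div_iff₀ (by linarith) (by linarith)]
  linarith

theorem rg_sp {x α β : ℝ} (hA : 1 ≤ x ^ α) (hB : 1 ≤ x ^ β) :
    |∑ p ∈ rg x α β, (1 : ℝ) / p - sp (x ^ α) (x ^ β)| ≤ 2 / x ^ α + 2 / x ^ β := by
  have hA0 : 0 < x ^ α := by linarith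
  have hB0 : 0 < x ^ β := by linarith
  have h1 : ∑ p ∈ rg x α β, (1 : ℝ) / p ≤ sp (x ^ α) (x ^ β) + 2 / x ^ α := by
    calc ∑ p ∈ rg x α β, (1 : ℝ) / p
        ≤ ∑ p ∈ (Ioc ⌊x ^ α⌋₊ ⌊x ^ β⌋₊).filter Nat.Prime ∪ {⌊x ^ α⌋₊}, (1 : ℝ) / p := by
          refine sum_le_sum_of_subset_of_nonneg ?_ (fun _ _ _ => by positivity)
          intro p hp
          rw [mem_rg] at hp
          obtain ⟨h1, h2, h3⟩ := hp
          rw [mem_union, mem_filter, mem_Ioc, mem_singleton]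
          rcases h2.lt_or_eq with h | h
          · exact Or.inl ⟨⟨(Nat.floor_lt hA0.le).2 h, Nat.le_floor h3.le⟩, h1⟩
          · right
            rw [h, Nat.floor_natCast]
      _ ≤ ∑ p ∈ (Ioc ⌊x ^ α⌋₊ ⌊x ^ β⌋₊).filter Nat.Prime, (1 : ℝ) / p +
          ∑ p ∈ ({⌊x ^ α⌋₊} : Finset ℕ), (1 : ℝ) / p := by
          rw [← sum_union_inter]
          have : 0 ≤ ∑ p ∈ (Ioc ⌊x ^ α⌋₊ ⌊x ^ β⌋₊).filter Nat.Prime ∩ {⌊x ^ α⌋₊}, (1 : ℝ) / p :=
            sum_nonneg fun _ _ => by positivity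
          linarith
      _ ≤ sp (x ^ α) (x ^ β) + 2 / x ^ α := by
          rw [sum_singleton, sp]
          have := one_div_floor hA
          linarith
  have h2 : sp (x ^ α) (x ^ β) ≤ ∑ p ∈ rg x α β, (1 : ℝ) / p + 2 / x ^ β := by
    calc sp (x ^ α) (x ^ β)
        ≤ ∑ p ∈ rg x α β ∪ {⌊x ^ β⌋₊}, (1 : ℝ) / p := by
          rw [sp]
          refine sum_le_sum_of_subset_of_nonneg ?_ (fun _ _ _ => by positivity)
          intro p hp
          rw [mem_filter, mem_Ioc] at hp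
          obtain ⟨⟨h1, h2⟩, h3⟩ := hp
          rw [mem_union, mem_rg, mem_singleton]
          rw [Nat.floor_lt hA0.le] at h1
          have h2' : (p : ℝ) ≤ x ^ β := (Nat.le_floor_iff hB0.le).1 h2
          rcases h2'.lt_or_eq with h | h
          · exact Or.inl ⟨h3, h1.le, h⟩
          · right
            rw [← h, Nat.floor_natCast]
      _ ≤ ∑ p ∈ rg x α β, (1 : ℝ) / p + ∑ p ∈ ({⌊x ^ β⌋₊} : Finset ℕ), (1 : ℝ) / p := by
          rw [← sum_union_inter]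
          have : 0 ≤ ∑ p ∈ rg x α β ∩ {⌊x ^ β⌋₊}, (1 : ℝ) / p :=
            sum_nonneg fun _ _ => by positivity
          linarith
      _ ≤ ∑ p ∈ rg x α β, (1 : ℝ) / p + 2 / x ^ β := by
          rw [sum_singleton]
          have := one_div_floor hB
          linarith
  have h3 : 0 < 2 / x ^ α := by positivity
  have h4 : 0 < 2 / x ^ β := by positivity
  rw [abs_le]
  constructor <;> linarith

theorem tendsto_div_rpow {α : ℝ} (hα : 0 < α) (c : ℝ) :
    Tendsto (fun x : ℝ => c / x ^ α) atTop (𝓝 0) :=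
  (tendsto_rpow_atTop hα).const_div_atTop c

theorem rg_tendsto {α β : ℝ} (hα : 0 < α) (hαβ : α ≤ β) :
    Tendsto (fun x : ℝ => ∑ p ∈ rg x α β, (1 : ℝ) / p) atTop (𝓝 (Real.log (β / α))) := by
  have hβ : 0 < β := lt_of_lt_of_le hα hαβ
  have h1 := mert_pow hα hαβ
  have h2 : Tendsto (fun x : ℝ => 2 / x ^ α + 2 / x ^ β) atTop (𝓝 0) := by
    have := (tendsto_div_rpow hα 2).add (tendsto_div_rpow hβ 2)
    simpa using this
  have h3 : Tendsto (fun x : ℝ => ∑ p ∈ rg x α β, (1 : ℝ) / p - sp (x ^ α) (x ^ β)) atTop (𝓝 0) := by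
    refine squeeze_zero_norm' ?_ h2
    filter_upwards [eventually_ge_atTop (1 : ℝ)] with x hx
    rw [Real.norm_eq_abs]
    exact rg_sp (Real.one_le_rpow hx hα.le) (Real.one_le_rpow hx hβ.le)
  have h4 := h3.add h1
  simpa using h4

end Pool.Agent.H63.CF
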