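import Mathlib

/-!
# Integers divisible by the square of a large integer (helper63)

`card_sq`: among the X integers A < n ≤ A + X at most X / y + sqrt (A + X) are divisible by the
square of an integer > y (y ≥ 1).
-/

set_option autoImplicit false

namespace Pool.Agent.H63.CF

open Finset

theorem sum_inv_sq (y m : ℕ) (hy : 1 ≤ y) :
    ∑ k ∈ Ioc y m, (1 : ℝ) / (k : ℝ) ^ 2 ≤ 1 / (y : ℝ) := by
  have hy0 : (0 : ℝ) < y := by exact_mod_cast hy
  rcases le_or_gt m y with h | h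
  · rw [Ioc_eq_empty_of_le h, sum_empty]; positivity
  have key : ∀ m : ℕ, y ≤ m → ∑ k ∈ Ioc y m, (1 : ℝ) / (k : ℝ) ^ 2 ≤ 1 / (y : ℝ) - 1 / (m : ℝ) := by
    intro m hm
    induction m, hm using Nat.le_induction with
    | base => simp
    | succ n hn ih =>
      have hn0 : (0 : ℝ) < n := by
        have : (y : ℝ) ≤ n := by exact_mod_cast hn
        linarith
      rw [← Finset.insert_Ioc_right_eq_Ioc_add_one hn, sum_insert (by simp)]
      have h1 : (1 : ℝ) / ((n + 1 : ℕ) : ℝ) ^ 2 ≤ 1 / (n : ℝ) - 1 / ((n + 1 : ℕ) : ℝ) := by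
        push_cast
        rw [div_sub_div _ _ hn0.ne' (by positivity), div_le_div_iff₀ (by positivity) (by positivity)]
        nlinarith
      linarith
  have h2 := key m h.le
  have h3 : (0 : ℝ) ≤ 1 / (m : ℝ) := by positivity
  linarith

theorem card_dvd_Ioc (A X d : ℕ) (hd : 0 < d) :
    (((Ioc A (A + X)).filter (fun n => d ∣ n)).card : ℝ) ≤ X / d + 1 := by
  have h1 : ((Ioc A (A + X)).filter (fun n => d ∣ n)).card ≤ X / d + 1 := by
    have h2 : ((Ioc A (A + X)).filter (fun n => d ∣ n)).card = (A + X) / d - A / d := by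
      have h3 : (Ioc A (A + X)).filter (fun n => d ∣ n) =
          (Ioc (A / d) ((A + X) / d)).image (fun k => d * k) := by
        ext n
        simp only [mem_filter, mem_Ioc, mem_image]
        constructor
        · rintro ⟨⟨a1, a2⟩, k, rfl⟩
          refine ⟨k, ⟨?_, ?_⟩, rfl⟩
          · rw [Nat.div_lt_iff_lt_mul hd, mul_comm]; exact a1
          · rw [Nat.le_div_iff_mul_le hd, mul_comm]; exact a2
        · rintro ⟨k, ⟨a1, a2⟩, rfl⟩
          rw [Nat.div_lt_iff_lt_mul hd, mul_comm] at a1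
          rw [Nat.le_div_iff_mul_le hd, mul_comm] at a2
          exact ⟨⟨a1, a2⟩, dvd_mul_right _ _⟩
      rw [h3, card_image_of_injective _ (fun u v (huv : d * u = d * v) => Nat.eq_of_mul_eq_mul_left hd huv), Nat.card_Ioc]
    rw [h2]
    have h4 : (A + X) / d ≤ A / d + X / d + 1 := by
      rw [Nat.add_div hd]
      split_ifs
      · exact le_rfl
      · exact Nat.le_succ _
    generalize (A + X) / d = u at h4 ⊢
    generalize A / d = v at h4 ⊢
    generalize X / d = w at h4 ⊢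
    omega
  calc (((Ioc A (A + X)).filter (fun n => d ∣ n)).card : ℝ) ≤ ((X / d + 1 : ℕ) : ℝ) := by
        exact_mod_cast h1
    _ ≤ X / d + 1 := by
        push_cast
        have := Nat.cast_div_le (α := ℝ) (m := X) (n := d)
        linarith

open Classical in
theorem card_sq (A X y : ℕ) (hy : 1 ≤ y) :
    (((Ioc A (A + X)).filter (fun n => ∃ m, y < m ∧ m ^ 2 ∣ n)).card : ℝ) ≤
      X / y + Real.sqrt (A + X) := by
  have hsub : (Ioc A (A + X)).filter (fun n => ∃ m, y < m ∧ m ^ 2 ∣ n) ⊆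
      (Ioc y (Nat.sqrt (A + X))).biUnion (fun m => (Ioc A (A + X)).filter (fun n => m ^ 2 ∣ n)) := by
    intro n hn
    rw [mem_filter, mem_Ioc] at hn
    obtain ⟨⟨h1, h2⟩, m, hm, hd⟩ := hn
    rw [mem_biUnion]
    refine ⟨m, ?_, ?_⟩
    · rw [mem_Ioc]
      refine ⟨hm, ?_⟩
      rw [Nat.le_sqrt']
      exact (Nat.le_of_dvd (by omega) hd).trans h2
    · rw [mem_filter, mem_Ioc]
      exact ⟨⟨h1, h2⟩, hd⟩
  have h1 := (card_le_card hsub).trans card_biUnion_le
  calc (((Ioc A (A + X)).filter (fun n => ∃ m, y < m ∧ m ^ 2 ∣ n)).card : ℝ)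
      ≤ ∑ m ∈ Ioc y (Nat.sqrt (A + X)),
          (((Ioc A (A + X)).filter (fun n => m ^ 2 ∣ n)).card : ℝ) := by exact_mod_cast h1
    _ ≤ ∑ m ∈ Ioc y (Nat.sqrt (A + X)), ((X : ℝ) * (1 / (m : ℝ) ^ 2) + 1) := by
        refine sum_le_sum fun m hm => ?_
        have hm0 : 0 < m := by have := (mem_Ioc.1 hm).1; omega
        have := card_dvd_Ioc A X (m ^ 2) (by positivity)
        push_cast at this
        calc _ ≤ (X : ℝ) / (m : ℝ) ^ 2 + 1 := this
          _ = (X : ℝ) * (1 / (m : ℝ) ^ 2) + 1 := by ring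
    _ = X * (∑ m ∈ Ioc y (Nat.sqrt (A + X)), 1 / (m : ℝ) ^ 2) +
          ((Nat.sqrt (A + X) - y : ℕ) : ℝ) := by
        rw [sum_add_distrib, ← mul_sum, sum_const, Nat.card_Ioc, nsmul_eq_mul, mul_one]
    _ ≤ X * (1 / y) + Real.sqrt (A + X) := by
        have h2 := sum_inv_sq y (Nat.sqrt (A + X)) hy
        have h3 : ((Nat.sqrt (A + X) - y : ℕ) : ℝ) ≤ Real.sqrt (A + X) := by
          have h4 : ((Nat.sqrt (A + X) - y : ℕ) : ℝ) ≤ ((Nat.sqrt (A + X) : ℕ) : ℝ) := by
            exact_mod_cast Nat.sub_le _ _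
          refine h4.trans ?_
          refine Real.le_sqrt_of_sq_le ?_
          exact_mod_cast Nat.sqrt_le' (A + X)
        have h5 : (0 : ℝ) ≤ X := Nat.cast_nonneg X
        nlinarith
    _ = X / y + Real.sqrt (A + X) := by ring

end Pool.Agent.H63.CF
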